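import Pool.Agent.T9h88.IP.Spec
import Pool.Agent.T9h85.IO.MOk

/-!
# (W3) the clauses are admissible, the theories are closed
-/

set_option autoImplicit false

namespace Pool.Agent.T9h85.IP

open Pool.Agent.T9h88.IO Pool.Agent.T9h88.IP Pool.Agent.T9h85.IO
open Pool.Agent.TH672 (Fm Str upd num digits varStr LogK)
open Pool.Agent.TH636.BC
open Pool.Agent.T9h6.BC (sz cl free_cl)
open Pool.Agent.TH838.J1549 (free_inst closed_robinson)

theorem ok_cl3 (P : Fml) (b L : ℕ) : ∀ c ∈ cl3 P b L, c.Ok := by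
  intro c hc
  simp only [cl3, List.mem_append] at hc
  rcases hc with ((h | h) | h) | h
  · revert c
    simp [Cl.Ok, At.lt, VB]
  · exact ok_kCl b c h
  · exact ok_kCl L c h
  · obtain ⟨τ, -, h⟩ := List.mem_flatMap.1 h
    exact ok_appCl τ c h

theorem ok_cls3 (P : Fml) (κ b L : ℕ) : ∀ c ∈ cls3 P κ b L, c.Ok := by
  intro c hc
  rcases List.mem_append.1 hc with h | h
  · exact ok_clsB P κ c h
  · exact ok_cl3 P b L c h

theorem closed_Ax3 : Ax3.Closed := by
  intro x h
  simp only [Ax3, θ1, Fm.neg, Fm.Free, or_false, At.fm] at h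
  tauto

theorem closed_ax (e : Ent) : e.ax.Closed := by
  intro x h
  obtain ⟨h0, h1, h⟩ := free_inst h
  obtain ⟨-, h2, h⟩ := free_inst h
  obtain ⟨-, h3, h⟩ := free_inst h
  obtain ⟨-, h4, h⟩ := free_inst h
  simp only [θ1, Fm.Free, At.fm] at h
  omega

theorem closed_Jl {P : Fml} (hP : Numerates P) (L l : ℕ) : (Jl P L l).Closed := by
  intro x h
  obtain ⟨h0, h1, h⟩ := free_inst h
  simp only [JJ, Fm.Free, At.fm] at h
  obtain ⟨h2, h3, h4, h⟩ := h
  rcases h with h | h | h | h | ⟨h5, h⟩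
  · omega
  · omega
  · omega
  · omega
  · have := free_off hP h
    omega

theorem closed_base' {A₀ : List Fml} {P : Fml} (hA : TrueSent A₀) (hP : Numerates P)
    (κ b L : ℕ) : ∀ ψ ∈ base' A₀ P κ b L, ψ.Closed := by
  intro ψ hψ
  simp only [base', List.mem_append, List.mem_cons, List.mem_map] at hψ
  rcases hψ with h | (h | h) | h | h | ⟨c, hc, rfl⟩
  · exact (hA ψ h).1
  · exact closed_robinson ψ h
  · exact closed_ExAx ψ h
  · exact h ▸ closed_link hP
  · exact h ▸ closed_Ax3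
  · exact closed_cl (ok_cls3 P κ b L c hc)

theorem closed_γγ (A₀ : List Fml) (P : Fml) (κ b L : ℕ) : (γγ A₀ P κ b L).Closed := by
  intro x h
  obtain ⟨h0, h1, h⟩ := free_inst h
  simp only [γ0, Fm.Free, At.fm] at h
  omega

/-- (W3) -/
theorem w3 : W3 := by
  intro A₀ P κ b L hA hP
  refine ⟨ok_cls3 P κ b L, ?_, fun Γ => ⟨closed_conAll hP Γ, closed_conAt hP Γ⟩⟩
  intro l ρ ψ hψ
  simp only [UU, base, List.mem_append, List.mem_cons, List.mem_map] at hψ
  rcases hψ with ⟨e, -, rfl⟩ | h | h | h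
  · exact closed_ax e
  · exact h ▸ closed_Jl hP L l
  · exact h ▸ closed_γγ A₀ P κ b L
  · exact closed_base' hA hP κ b L ψ h

end Pool.Agent.T9h85.IP
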